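import Pool.Agent.Run7.h197.FMS.Scale

/-!
# MP_4a0cc8_nt: a uniform bound for one-parameter families at `S`-integral parameters

Let `K` be a number field, `E₀ : y² = x³ + A₀x + B₀` an elliptic curve over `K`, and `j = F/G` a
nonconstant rational function over `K` in lowest terms (for example the invariant of the Legendre
family, or of any one-parameter family of elliptic curves over `K` which is not isotrivial).

**Theorem.** Let `S` be a finite set of prime numbers. There is `n₀` such that for all `S`-integers
`t` of `K` with finitely many exceptions, for EVERY `n ≥ n₀` and EVERY elliptic curve `E` over `K`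
with `j(E) = j(t)` the Galois modules `E[n]` and `E₀[n]` are not isomorphic.

For one level `n` this is a consequence of the theorem of Siegel (and, for large `n`, of Faltings);
the point is the uniformity in `n`.  The finite set of exceptions includes the `t` for which `E` is
isogenous to `E₀`.  Together with the theorem of Siegel (an affine curve has only finitely many
`S`-integral points unless it is the affine line or the line without a point, up to extension of `K`)
it covers the `S`-integral points of all families over affine curves.

Proof.  Let `n` be large.  By the local theorems of helper673 there is a large `p ∣ n` (a prime, or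
a power of a small prime up to a bounded factor) such that, at the places outside of a finite set,
`p` divides the order of `j(t)` where it is negative, `3` divides the order of `j(t)` and `2` divides
the order of `j(t) - 1728` where `j(t)` is integral (`E` has good reduction there).
(a) If `j` has two poles `π`, `π'` over the algebraic closure then `p` divides the orders of `t - π`
and `t - π'` outside of a finite set, up to multiplicities.
(b) If `j` has one pole `π` then by the theorem of Mason and Stothers `j` has a zero `ρ` whose
multiplicity is not divisible by `3`, or `j - 1728` has a zero of odd multiplicity; so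
`t - ρ = b z³` (or `b z²`) with finitely many `b`, and `t - π` splits into factors linear in `z`; over
an extension we are in the situation of (a) with `z` in place of `t`.
(c) If `j` is a polynomial, the conditions at the zeros suffice.
In (a) and (b) we use the theorem of Schinzel and Tijdeman over number fields, for `S`-integers and
with units (`Run7.h197.ST.stS`): there is `n₀` such that the set of `S`-integers `x` of `K` for which
the orders of `x - β`, `x - β'` outside of a finite set of places are divisible by some `n ≥ n₀` is
finite, `β ≠ β'`.  It is proved here from lower bounds for linear forms in logarithms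
`|b₁ log α₁ + ... + bₘ log αₘ| ≥ exp(- (log B) ^ κ log A)` over number fields, archimedean
(`Run7.h197.BK`) and `p`-adic (`Run7.h197.PB`), in which `A` is the height of the last number and the
others are fixed; both are proved with Baker's method.
-/

set_option autoImplicit false

open WeierstrassCurve NumberField Polynomial

namespace Pool.Agent.Results.MP_4a0cc8_nt.FamiliesSIntegralParameter

section
variable {K : Type} [Field K]

/-- The curve `y² = x³ + Ax + B` over `K`. -/
def curve (A B : K) : WeierstrassCurve K := ⟨0, 0, 0, A, B⟩

open scoped Classical in
/-- The group of its points over the algebraic closure of `K`. -/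
abbrev Points (A B : K) : Type := ((curve A B).baseChange (AlgebraicClosure K)).toAffine.Point

open scoped Classical in
/-- The action of a `K`-automorphism `σ` of the algebraic closure on the points. -/
noncomputable def galois (A B : K) (σ : AlgebraicClosure K ≃ₐ[K] AlgebraicClosure K) :
    Points A B →+ Points A B :=
  WeierstrassCurve.Affine.Point.map (σ : AlgebraicClosure K →ₐ[K] AlgebraicClosure K)

open scoped Classical in
/-- The `n`-torsion of `y² = x³ + Ax + B` and that of `y² = x³ + A'x + B'` are isomorphic as Galois
modules: some map between the groups of points restricts to a bijective additive map of the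
`n`-torsion which commutes with the Galois group. -/
def Congruent (n : ℕ) (A B A' B' : K) : Prop :=
  ∃ f : Points A B → Points A' B', (∀ P Q, n • P = 0 → n • Q = 0 → f (P + Q) = f P + f Q) ∧
    Set.BijOn f {P | n • P = 0} {Q | n • Q = 0} ∧
    ∀ (σ : AlgebraicClosure K ≃ₐ[K] AlgebraicClosure K) (P : Points A B), n • P = 0 →
      f (galois A B σ P) = galois A' B' σ (f P)

/-- The invariant of `y² = x³ + Ax + B`. -/
noncomputable def jInvariant (A B : K) : K := 6912 * A ^ 3 / (4 * A ^ 3 + 27 * B ^ 2)

end

/-- **Families with `S`-integral parameter.** For an elliptic curve `E₀ : y² = x³ + A₀x + B₀` over a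
number field `K`, a nonconstant rational function `F/G` over `K` in lowest terms and `N ≥ 1` there is
`n₀` such that only for finitely many `t` in `K` with `N ^ k t` integral for some `k` some curve over
`K` with the invariant `F(t)/G(t)` is congruent to `E₀` modulo some `n ≥ n₀`. -/
theorem result (K : Type) [Field K] [NumberField K] (A₀ B₀ : K)
    (h0 : 4 * A₀ ^ 3 + 27 * B₀ ^ 2 ≠ 0) (F G : K[X]) (hcop : IsCoprime F G)
    (hnc : F.natDegree ≠ 0 ∨ G.natDegree ≠ 0) (N : ℕ) (hN : N ≠ 0) :
    ∃ n₀ : ℕ, {t : K | (∃ k : ℕ, _root_.IsIntegral ℤ ((N : K) ^ k * t)) ∧ G.eval t ≠ 0 ∧
      ∃ n : ℕ, n₀ ≤ n ∧ ∃ A B : K, 4 * A ^ 3 + 27 * B ^ 2 ≠ 0 ∧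
        jInvariant A B = F.eval t / G.eval t ∧ Congruent n A B A₀ B₀}.Finite := by
  obtain ⟨n₀, hfin⟩ := Run7.h197.FMS.fm' A₀ B₀ h0 F G hcop hnc N hN
  refine ⟨n₀, hfin.subset ?_⟩
  rintro t ⟨ht, hGt, n, hn, A, B, hD, hj, f, h1, h2, h3⟩
  exact ⟨ht, hGt, n, hn, A, B, hD, hj, f, h1, h2, h3⟩

end Pool.Agent.Results.MP_4a0cc8_nt.FamiliesSIntegralParameter
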