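import Pool.Agent.Run7.h95.LF.Full
import Pool.Agent.Results.MP_4a0cc8_nt.PartnerWindows

/-!
# No curve with the height of its invariant near the values of generic linear forms is congruent to a given curve

Let `v_i`, `i` in a countable set, be vectors in `ℝ^k` such that for every `ε > 0` at most `C X ^ (τ + ε)` of them have norm at
most `X`; for instance all `(b_1^(n_1), …, b_k^(n_k))` with `b_j > 1` (`τ = 0`), all `(1, n, …, n^d)` (`τ = 1 / d`), or all
`(n_1^(a_1), …, n_k^(a_k))` (`τ` the sum of the `1 / a_j`).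
Let `K` be a number field, `H` the height on `K` and `0 ≤ θ < 1`. For all `α` in `ℝ^k` outside a set of Hausdorff dimension at
most `k - 1 + τ / (1 - θ)` (less than `k`, hence for almost all `α`, if `θ < 1 - τ`; for `τ = 0` for all `θ < 1`) there is
`n₀` with the following property: for EVERY elliptic curve `E₀ : y² = x³ + A₀x + B₀` over `K`, `A₀`, `B₀` integral, every `w`
and all but finitely many `i`, NO elliptic curve `E` over `K` with
`|H(j(E)) - (α_1 v_(i,1) + … + α_k v_(i,k))| ≤ w |v_i|^θ` satisfies `E[n] ≅ E₀[n]` for some `n ≥ n₀`. (The starting files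
treat the heights near `f_n(α)`, starshaped, with one parameter `α`, and near the values of multiplicative functions.)

Proof. The number of the invariants of height at most `X` of curves congruent to `E₀` modulo some `n ≥ n₀(ε)` is at most
`C X^ε` (starting theorem `FewPartnersAllLevels`, in the form `PartnerWindows.partners_count`). The `α` with such an invariant
in the window of `v_i` form slabs, which are covered by few small cubes (`Pool.Agent.N251.LF`); then `ε → 0`.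
-/

set_option autoImplicit false

open Filter Topology NumberField

namespace Pool.Agent.Results.MP_4a0cc8_nt.GenericLinearForms

open FewPartnersAllLevels (Congruent jInvariant)
open PartnerWindows (Partners partners_count)
open Pool.Agent.N251.LF (Fam Sq examples)
open Run7.h95.LF (full_ctb null_lin)

/-- **Theorem.** Let the family `v` of vectors in `ℝ^k` have at most `C X ^ (τ + η)` members of norm at most `X`, for every
`η > 0`, let `0 ≤ θ < 1` and let `K` be a number field. There is a set `E` of Hausdorff dimension at most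
`k - 1 + τ / (1 - θ)` (less than `k`, and of measure zero, if `θ < 1 - τ`) such that for each `α` in `ℝ^k` outside `E` there
is `n₀` with the following property: for EVERY elliptic curve `E₀ : y² = x³ + A₀x + B₀` over `K`, `A₀`, `B₀` integral, and
each `w`, for all but finitely many `i` no elliptic curve `y² = x³ + Ax + B` over `K` with
`|H(j) - ∑ α_l v_(i,l)| ≤ w ‖v_i‖ ^ θ`, `H(j)` the height of its invariant, is congruent to `E₀` modulo some `n ≥ n₀`.
Examples of families. -/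
theorem result :
    (∀ (k : ℕ) (ι : Type) (v : ι → Fin k → ℝ) (τ θ : ℝ), 0 ≤ τ → 0 ≤ θ → θ < 1 → Fam v τ →
      ∀ (K : Type) [Field K] [NumberField K],
      ∃ E : Set (Fin k → ℝ), dimH E ≤ ENNReal.ofReal ((k : ℝ) - 1 + τ / (1 - θ)) ∧
        (1 ≤ k → θ < 1 - τ → dimH E < (k : ENNReal) ∧ MeasureTheory.volume E = 0) ∧
        ∀ α, α ∉ E → ∃ n₀ : ℕ, ∀ A₀ B₀ : 𝓞 K, 4 * A₀ ^ 3 + 27 * B₀ ^ 2 ≠ 0 → ∀ w : ℝ,
          {i | ¬ ∀ A B : K, 4 * A ^ 3 + 27 * B ^ 2 ≠ 0 →
            |Height.mulHeight₁ (jInvariant A B) - ∑ l, α l * v i l| ≤ w * ‖v i‖ ^ θ →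
            ∀ n : ℕ, n₀ ≤ n → ¬ Congruent n A B (A₀ : K) (B₀ : K)}.Finite) ∧
    (∀ d : ℕ, 1 ≤ d → Fam (fun (n : ℕ) (j : Fin (d + 1)) => (n : ℝ) ^ (j : ℕ)) (1 / d)) ∧
    (∀ (k : ℕ) (b : Fin k → ℝ), (∀ j, 1 < b j) → Fam (fun (n : Fin k → ℕ) (j : Fin k) => b j ^ n j) 0) ∧
    (∀ (k : ℕ) (a : Fin k → ℝ), (∀ j, 0 < a j) →
      Fam (fun (n : Fin k → ℕ) (j : Fin k) => (n j : ℝ) ^ a j) (∑ j, 1 / a j)) ∧
    ∀ (k : ℕ) (u : Fin k → ℕ → ℝ) (τ : Fin k → ℝ), (∀ j, Sq (u j) (τ j)) →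
      Fam (fun (n : Fin k → ℕ) (j : Fin k) => u j (n j)) (∑ j, τ j) := by
  classical
  refine ⟨fun k ι v τ θ hτ hθ0 hθ1 hv K _ _ => ?_, examples⟩
  have hK : Countable K := (Module.finBasis ℚ K).equivFun.injective.countable
  have hcnt : Countable (𝓞 K) := (RingOfIntegers.coe_injective (K := K)).countable
  have hall : ∀ j : ℕ, ∃ (n₀ : ℕ) (G : Set (Fin k → ℝ)),
      dimH G ≤ ENNReal.ofReal ((k : ℝ) - 1 + (1 / ((j : ℝ) + 1) + τ) / (1 - θ)) ∧
      ∀ α, α ∉ G → ∀ e : {e : 𝓞 K × 𝓞 K // 4 * e.1 ^ 3 + 27 * e.2 ^ 2 ≠ 0}, ∀ w : ℝ,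
        {i | ∃ x ∈ Partners n₀ (e.1.1 : K) (e.1.2 : K), |Height.mulHeight₁ x - ∑ l, α l * v i l| ≤
          w * ‖v i‖ ^ θ}.Finite := by
    intro j
    obtain ⟨n₀, h⟩ := partners_count (Module.finrank ℚ K) (1 / ((j : ℝ) + 1)) (by positivity)
    obtain ⟨E, h1, -, h3⟩ := full_ctb (J := {e : 𝓞 K × 𝓞 K // 4 * e.1 ^ 3 + 27 * e.2 ^ 2 ≠ 0})
      (fun e => Partners n₀ (e.1.1 : K) (e.1.2 : K)) (fun x => Height.mulHeight₁ x) v (s := 1 / ((j : ℝ) + 1))
      (by positivity) hτ hθ1 hv (by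
        intro e η hη
        obtain ⟨C, hC, h'⟩ := h K rfl e.1.1 e.1.2 e.2
        refine ⟨C, fun X hX => ⟨(h' X hX).1, (h' X hX).2.trans ?_⟩⟩
        apply mul_le_mul_of_nonneg_left _ hC
        exact Real.rpow_le_rpow_of_exponent_le hX (by linarith))
    exact ⟨n₀, E, h1, h3⟩
  choose n₀ G hG1 hG2 using hall
  have hlim : Tendsto (fun m : ℕ => ENNReal.ofReal ((k : ℝ) - 1 + (1 / ((m : ℝ) + 1) + τ) / (1 - θ))) atTop
      (𝓝 (ENNReal.ofReal ((k : ℝ) - 1 + (0 + τ) / (1 - θ)))) :=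
    ENNReal.tendsto_ofReal
      (((tendsto_one_div_add_atTop_nhds_zero_nat.add_const τ).div_const (1 - θ)).const_add ((k : ℝ) - 1))
  rw [zero_add] at hlim
  have hdim : dimH (⋂ m, G m) ≤ ENNReal.ofReal ((k : ℝ) - 1 + τ / (1 - θ)) :=
    ge_of_tendsto' hlim fun m => (dimH_mono (Set.iInter_subset _ m)).trans (hG1 m)
  refine ⟨⋂ m, G m, hdim, fun hk hlt => null_lin hdim hk ?_, fun α hα => ?_⟩
  · rw [div_lt_one (by linarith)]
    linarith
  · rw [Set.mem_iInter] at hα
    push Not at hα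
    obtain ⟨j, hj⟩ := hα
    refine ⟨n₀ j, fun A₀ B₀ h0 w => (hG2 j α hj ⟨(A₀, B₀), h0⟩ w).subset ?_⟩
    intro i hi
    simp only [Set.mem_ofPred_eq] at hi ⊢
    push Not at hi
    obtain ⟨A, B, hAB, hw, n, hn, hcon⟩ := hi
    exact ⟨jInvariant A B, ⟨A, B, hAB, rfl, n, hn, hcon⟩, hw⟩

end Pool.Agent.Results.MP_4a0cc8_nt.GenericLinearForms
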