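import Mathlib
import Pool.Agent.Run7.h742.FM.Fx

/-!
# Congruences modulo large integers do not lower the conductor above almost all integral points

Let `j = F / G` be a rational function of `n ≥ 1` variables over `ℚ`, of degree `D`, whose poles have the
weight `ω` (a hyperplane counts for `1`, an irreducible hypersurface of higher degree for `2`), and let
`N > D / ω`.  For almost all integral points `x` of the affine space, in fact for almost all rational
points with any given set of denominators:

* for ALL number fields `K` of degree at most `d`, ALL integers `m > level d N`, ALL elliptic curves `E`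
  over `K` of invariant `j(x)` (all twists) and ALL elliptic curves `E'` over `K` with `E[m] ≅ E'[m]`, the
  curve `E'` has bad reduction at all places above some primes with a product larger than `H(x) ^ κ`,
  for any given `κ < ω - D / N`; so the conductor of `E'` is not smaller than this power;
* in particular, for a FIXED elliptic curve `E₀` over a number field `K` of degree at most `d` there are
  no congruences `E[m] ≅ E₀[m]`, `m > level d N`, for any `E` over `K` of invariant `j(x)`, as soon as
  `H(x)` is large; the bound for the level depends only on `d` and `N`.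

The exceptional set is the same for all functions `j`, all fields, all curves and all levels.

Proof. For almost all `x` there are primes `l` of which `j(x)` has a pole, with product at least
`H(x) ^ (ω - ε)`, and those at which the order of the pole is at least `N` have a product of at most
`C H(x) ^ (D/N)`. A level `m > level d N` has a prime factor `p ≥ d N + 17`, or it is divisible by a prime
power `q ^ (k + 1) > 60 d N` with `q < d N + 17`.  At the places above the primes `l ≥ d N + 17` which are
left the order of the pole of `j(E)` is at most `d N`, and good reduction of `E'` at one of these places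
would imply that it is divisible by `p`, respectively `60` times it by `q ^ (k + 1)`, by the local
theorems of the starting files `Y673/FM` (which cover the places above `p`).
-/

set_option autoImplicit false

namespace Pool.Agent.Results.MP_4a0cc8_nt.IntegralPointsAllLevels

open MvPolynomial NumberField IsDedekindDomain

section
variable {K : Type} [Field K]

/-- The curve `y² = x³ + Ax + B` over the field `K`. -/
def curve (A B : K) : WeierstrassCurve K := ⟨0, 0, 0, A, B⟩

/-- Its `j`-invariant. -/
noncomputable def invariant (A B : K) : K := 1728 * (4 * A ^ 3) / (4 * A ^ 3 + 27 * B ^ 2)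

open scoped Classical in
/-- The group of its points over the algebraic closure of `K`. -/
abbrev CurvePoints (A B : K) : Type :=
  ((curve A B).baseChange (AlgebraicClosure K)).toAffine.Point

open scoped Classical in
/-- The action of an automorphism `σ` of the algebraic closure on the points. -/
noncomputable def galois (A B : K) (σ : AlgebraicClosure K ≃ₐ[K] AlgebraicClosure K) :
    CurvePoints A B →+ CurvePoints A B :=
  WeierstrassCurve.Affine.Point.map (σ : AlgebraicClosure K →ₐ[K] AlgebraicClosure K)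

open scoped Classical in
/-- The groups of the points killed by `m` of `y² = x³ + Ax + B` and of `y² = x³ + A'x + B'` are
isomorphic as Galois modules: some map between the groups of points restricts to a bijective
additive map between them which commutes with the Galois group of `K`. -/
def Congruent (m : ℕ) (A B A' B' : K) : Prop :=
  ∃ f : CurvePoints A B → CurvePoints A' B',
    (∀ P Q, m • P = 0 → m • Q = 0 → f (P + Q) = f P + f Q) ∧
    Set.BijOn f {P | m • P = 0} {Q | m • Q = 0} ∧
    ∀ (σ : AlgebraicClosure K ≃ₐ[K] AlgebraicClosure K) (P : CurvePoints A B), m • P = 0 →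
      f (galois A B σ P) = galois A' B' σ (f P)

/-- good reduction at `v`: some Weierstrass equation over `K` of the curve is integral at `v` and
has a discriminant which is a unit at `v` -/
def GoodAt [NumberField K] (v : HeightOneSpectrum (𝓞 K)) (E : WeierstrassCurve K) : Prop :=
  ∃ C : WeierstrassCurve.VariableChange K,
    v.valuation K (C • E).a₁ ≤ 1 ∧ v.valuation K (C • E).a₂ ≤ 1 ∧ v.valuation K (C • E).a₃ ≤ 1 ∧
    v.valuation K (C • E).a₄ ≤ 1 ∧ v.valuation K (C • E).a₆ ≤ 1 ∧ v.valuation K (C • E).Δ = 1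

end

/-- `max |x_j|` -/
def H {n : ℕ} (x : Fin (n + 1) → ℤ) : ℕ := Finset.univ.sup fun j => (x j).natAbs

/-- the rational points of the affine space `𝔸^n = ℙ^n ∖ {x 0 = 0}` with denominator in `M` and
with `H x ≤ B`: the point `(x 1 / x 0, …, x n / x 0)` is given by its coprime integer coordinates
with `x 0 > 0`, and `x 0` is its denominator. `M = {1}`: the integral points -/
def Points (n : ℕ) (M : Set ℕ) (B : ℕ) : Set (Fin (n + 1) → ℤ) :=
  {x | Finset.univ.gcd x = 1 ∧ 0 < x 0 ∧ (x 0).toNat ∈ M ∧ H x ≤ B}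

/-- `F`, `G` are forms of degree `D` in `x 0, …, x n`, so `F / G` is a rational function on `𝔸^n`,
and its poles contain the distinct hypersurfaces `P j = 0` of degree `k j`, irreducible over `ℚ`,
none of which is the hyperplane `x 0 = 0`: `P j` divides `G` and does not divide `F` -/
structure IsInvariant {n q : ℕ} (D : ℕ) (F G : MvPolynomial (Fin (n + 1)) ℤ)
    (P : Fin q → MvPolynomial (Fin (n + 1)) ℤ) (k : Fin q → ℕ) : Prop where
  hF : F.IsHomogeneous D
  hG : G.IsHomogeneous D
  hP : ∀ j, (P j).IsHomogeneous (k j)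
  irreducible : ∀ j, Irreducible (map (Int.castRingHom ℚ) (P j))
  distinct : ∀ i j, i ≠ j →
    ¬ Associated (map (Int.castRingHom ℚ) (P i)) (map (Int.castRingHom ℚ) (P j))
  affine : ∀ j, ¬ Associated (map (Int.castRingHom ℚ) (P j)) (X 0)
  dvd : ∀ j, map (Int.castRingHom ℚ) (P j) ∣ map (Int.castRingHom ℚ) G
  not_dvd : ∀ j, ¬ map (Int.castRingHom ℚ) (P j) ∣ map (Int.castRingHom ℚ) F

/-- the weight of the poles: a pole of degree `1` counts for `1`, a pole of degree at least `2`
counts for `2` -/
def weight {q : ℕ} (k : Fin q → ℕ) : ℝ := ∑ j, ((min (k j) 2 : ℕ) : ℝ)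

/-- the value `F (x) / G (x)` -/
noncomputable def value {n : ℕ} (F G : MvPolynomial (Fin (n + 1)) ℤ) (x : Fin (n + 1) → ℤ) : ℚ :=
  ((eval x F : ℤ) : ℚ) / ((eval x G : ℤ) : ℚ)

/-- the bound for the level -/
def level (d N : ℕ) : ℕ := (60 * (d * N) + 3) ^ (d * N + 17)

/-- For all number fields `K` of degree at most `d`, all `m > level d N` and all elliptic curves
`E : y² = x³ + Ax + B` and `E' : y² = x³ + A'x + B'` over `K` with isomorphic Galois modules `E[m]` and
`E'[m]`, such that the invariant of `E` is `F (x) / G (x)`, there are different primes `l ≥ 5` with a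
product larger than `H x ^ κ` such that `E'` has bad reduction at all places of `K` above them. -/
def PartnersAreBad {n : ℕ} (F G : MvPolynomial (Fin (n + 1)) ℤ) (d N : ℕ) (κ : ℝ)
    (x : Fin (n + 1) → ℤ) : Prop :=
  ∀ (K : Type) [Field K] [NumberField K], Module.finrank ℚ K ≤ d → ∀ m : ℕ, level d N < m →
    ∀ A B A' B' : K, 4 * A ^ 3 + 27 * B ^ 2 ≠ 0 → 4 * A' ^ 3 + 27 * B' ^ 2 ≠ 0 →
      invariant A B = (value F G x : K) → Congruent m A B A' B' →
      ∃ T : Finset ℕ, (∀ l ∈ T, l.Prime ∧ 5 ≤ l ∧ ∀ v : HeightOneSpectrum (𝓞 K),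
        (l : 𝓞 K) ∈ v.asIdeal → ¬ GoodAt v (curve A' B')) ∧
        (H x : ℝ) ^ κ < ∏ l ∈ T, (l : ℝ)

/-- Some elliptic curve `E` over `K` of invariant `F (x) / G (x)` is congruent to the given curve
`E₀ : y² = x³ + A₀x + B₀` modulo some `m > level d N`. -/
def CongruentToFixed {n : ℕ} (F G : MvPolynomial (Fin (n + 1)) ℤ) (d N : ℕ) {K : Type} [Field K]
    [NumberField K] (A₀ B₀ : K) (x : Fin (n + 1) → ℤ) : Prop :=
  ∃ m : ℕ, level d N < m ∧ ∃ A B : K, 4 * A ^ 3 + 27 * B ^ 2 ≠ 0 ∧
    invariant A B = (value F G x : K) ∧ Congruent m A B A₀ B₀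

/-- the proportion of the points of `Q` among the points with denominators in `M` of height at most
`B` is at most a negative power of `B`, uniformly in the set `M` -/
def PowerSaving (n : ℕ) (Q : Set (Fin (n + 1) → ℤ)) : Prop :=
  ∃ δ : ℝ, 0 < δ ∧ ∃ C : ℝ, 0 < C ∧ ∀ B : ℕ, 1 ≤ B → ∀ M : Set ℕ,
    ((Points n M B ∩ Q).ncard : ℝ) ≤ C * (B : ℝ) ^ (-δ) * ((Points n M B).ncard : ℝ)

theorem inv_eq {K : Type} [Field K] (A B : K) : Pool.Agent.Y673.Loc.jv A B = invariant A B := by
  unfold Pool.Agent.Y673.Loc.jv invariant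
  ring

theorem bad_of {n : ℕ} {F G : MvPolynomial (Fin (n + 1)) ℤ} {d N : ℕ} {κ : ℝ}
    {x : Fin (n + 1) → ℤ} (hx : x 0 ≠ 0) (h : Run7.h742.FM.Hi F G d N κ x) :
    PartnersAreBad F G d N κ x := by
  intro K _ _ hd m hm A B A' B' hD hD' hj ⟨f, h1, h2, h3⟩
  obtain ⟨T, hT, hb⟩ := h K hd m hm A B A' B' hD hD' (by rw [inv_eq]; exact hj)
    ⟨f, ⟨h1, h2, h3⟩⟩
  refine ⟨T, hT, ?_⟩
  have hH : (0 : ℝ) < H x := by exact_mod_cast Run7.h742.SZ.Ht_pos hx
  have hne : ∀ l ∈ T, (l : ℝ) ≠ 0 := fun l hl => by exact_mod_cast (hT l hl).1.ne_zero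
  rw [← Real.log_prod hne] at hb
  have hpos : (0 : ℝ) < ∏ l ∈ T, (l : ℝ) :=
    Finset.prod_pos fun l hl => by exact_mod_cast (hT l hl).1.pos
  rw [Real.rpow_def_of_pos hH, ← Real.lt_log_iff_exp_lt hpos, mul_comm]
  exact hb

theorem fixed_of {n : ℕ} {F G : MvPolynomial (Fin (n + 1)) ℤ} {d N : ℕ} {K : Type} [Field K]
    [NumberField K] {A₀ B₀ : K} {x : Fin (n + 1) → ℤ} (h : CongruentToFixed F G d N A₀ B₀ x) :
    Run7.h742.FM.Fixed F G d N A₀ B₀ x := by
  obtain ⟨m, hm, A, B, hD, hj, f, h1, h2, h3⟩ := h
  exact ⟨m, hm, A, B, hD, by rw [inv_eq]; exact hj, f, ⟨h1, h2, h3⟩⟩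

/-- **Congruences modulo large integers above almost all integral points.** For every number `n ≥ 1`
of variables there is one set `E₀` of relative density zero among the points with denominators in `M`,
uniformly in `M`, with the following properties for all invariants `j = F / G` of `n` variables, of
degree `D`, whose poles have the weight `ω`, all `d` and all `N ≥ 1`:
(1) if `κ < ω - D / N`, the points `x` with a curve over a field of degree at most `d` which is congruent
modulo some `m > level d N` to a curve of invariant `j(x)` and has few bad primes form a power-saving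
proportion of the points, uniformly in `M`, and there are none outside `E₀` with `H x > T`;
(2) if `D / N < ω`, the same is true of the points `x` such that some curve of invariant `j(x)` over `K`
is congruent to the given curve `y² = x³ + A₀x + B₀` over `K` modulo some `m > level d N`, for every
number field `K` of degree at most `d` and all `A₀`, `B₀` in `K`. -/
theorem result (n : ℕ) (hn : 1 ≤ n) : ∃ E₀ : Set (Fin (n + 1) → ℤ),
    (∀ ε : ℝ, 0 < ε → ∃ B₀ : ℕ, ∀ B : ℕ, B₀ ≤ B → ∀ M : Set ℕ,
      ((Points n M B ∩ E₀).ncard : ℝ) ≤ ε * ((Points n M B).ncard : ℝ)) ∧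
    ∀ (D q : ℕ) (F G : MvPolynomial (Fin (n + 1)) ℤ)
      (P : Fin q → MvPolynomial (Fin (n + 1)) ℤ) (k : Fin q → ℕ), IsInvariant D F G P k →
      ∀ (d N : ℕ), 1 ≤ N →
        (∀ κ : ℝ, κ < weight k - D / N →
          PowerSaving n {x | x 0 ≠ 0 ∧ eval x G ≠ 0 ∧ ¬ PartnersAreBad F G d N κ x} ∧
          ∃ T : ℕ, ∀ x : Fin (n + 1) → ℤ, x 0 ≠ 0 → x ∉ E₀ → T < H x → eval x G ≠ 0 →
            PartnersAreBad F G d N κ x) ∧
        ((D : ℝ) / N < weight k → ∀ (K : Type) [Field K] [NumberField K],
          Module.finrank ℚ K ≤ d → ∀ A₀ B₀ : K, 4 * A₀ ^ 3 + 27 * B₀ ^ 2 ≠ 0 →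
            PowerSaving n {x | x 0 ≠ 0 ∧ eval x G ≠ 0 ∧ CongruentToFixed F G d N A₀ B₀ x} ∧
            ∃ T : ℕ, ∀ x : Fin (n + 1) → ℤ, x 0 ≠ 0 → x ∉ E₀ → T < H x → eval x G ≠ 0 →
              ¬ CongruentToFixed F G d N A₀ B₀ x) := by
  obtain ⟨E₀, hE₀, hall⟩ := Run7.h742.FM.hi_univ hn
  refine ⟨E₀, hE₀, fun D q F G P k h d N hN => ?_⟩
  have hI : Run7.h742.SZ.Inv D F G P k :=
    ⟨h.hF, h.hG, ⟨h.hP, h.irreducible, h.distinct, h.affine⟩, h.dvd, h.not_dvd⟩
  obtain ⟨g1, g2⟩ := hall D q F G P k hI d N hN
  refine ⟨fun κ hκ => ⟨?_, ?_⟩, fun hω K _ _ hd A₀ B₀ h0 => ⟨?_, ?_⟩⟩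
  · refine (Run7.h742.FM.hi_ps (d := d) hn hI hN (κ := κ) (by unfold weight at hκ; linarith)).mono
      ?_
    rintro x ⟨hx, hG, hS⟩
    exact ⟨hx, hG, fun hc => hS (bad_of hx hc)⟩
  · obtain ⟨T, hT⟩ := g1 κ (by unfold weight at hκ; linarith)
    exact ⟨T, fun x hx hxE hTx hG => bad_of hx (hT x hx hxE hTx hG)⟩
  · refine (Run7.h742.FM.fixed_ps hn hI hN hω hd h0).mono ?_
    rintro x ⟨hx, hG, hS⟩
    exact ⟨hx, hG, fixed_of hS⟩
  · obtain ⟨T, hT⟩ := g2 hω K hd A₀ B₀ h0
    exact ⟨T, fun x hx hxE hTx hG hS => hT x hx hxE hTx hG (fixed_of hS)⟩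

end Pool.Agent.Results.MP_4a0cc8_nt.IntegralPointsAllLevels
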