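import Pool.Agent.Run7.h577.WH

/-!
# MP_4a0cc8_nt: for almost all `E₀` over `ℚ`, no congruence over number fields with curves of height up to `H(E₀) ^ (5/3 - η)`

Let `κ < 5/3` and `d ≥ 1`.  For all but `O(H ^ (5/6 - δ))` of the (at least `H ^ (5/6) / 9`) integral
equations `E₀ : y² = x³ + Ax + B` of height `max (4|A|³, 27B²)` at most `H` the following holds.  Let `K` be a
number field of degree at most `d`, prime to `6` (for instance `ℚ`), and let `E` be an elliptic curve over `K`
whose invariant is that of an integral equation `y² = x³ + ax + b` of height at most `H ^ κ`, OR of height at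
most the power `3 / 2` of its conductor, however large (almost all equations satisfy this second condition).
If `E[n] ≅ E₀[n]` over `K` for some `n` with a prime factor `p ≥ 13`, `p > [K : ℚ]`, then `E` is isomorphic to
`E₀` over `K`.  In particular the bound `n₀` of the question is the least possible for these `E` and, for
instance, for prime numbers `n`: it depends neither on `E₀` nor on `K`, and twists of `E₀` are excluded as
well.

Proof.  Let `E[p] ≅ E₀[p]` over `K`, `D = 4A³ + 27B²`, and `D' = 4a³ + 27b²` for the minimal twist `(a, b)` of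
`E`.  By the local theorems of the libraries `Y673`, `K4H56/JD` a prime `q ≥ 5` dividing `D` exactly once is a
prime of multiplicative reduction of `(a, b)`, and any other prime `q ≥ 5`, `q ∤ D` with `q ∣ D'` has
multiplicative reduction and `q ^ p ∣ D'` (but for one small `q = p`; here the degree prime to `6` is used).
Let `S` be the product of the primes dividing `D` exactly once.  For all but `O(H ^ (5/6 - δ))` curves
`S ≥ H ^ (1 - ω)`; so `S ∣ D'` and the conductor `N'` of `(a, b)` is at most `H ^ (1 + ω) (H' / H) ^ (1 / 13)`,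
where `H' = H(a, b)`.  Conversely `S ∣ D'`, the (small) number `D / S` and the fact that few `E₀` have a common
`D` leave few `E₀` for a given `(a, b)`.  The number of the curves `(a, b)` of height about `H' = H ^ κ` and
conductor at most `N` is at most `(N / H' ^ (1/6) + H' ^ (1/2)) H ^ ε` (library `Run7/h577/V*`), which is smaller
than `H ^ (5/6)` for `1 < κ < 5/3`.  For `H' ≤ H ^ (21 / 20)` the discriminants `D`, `D'` are proportional, with
a small factor, and the pairs `(A, B)`, `(a, b)` with `k' (4A³ + 27B²) = k (4a³ + 27b²)`, `k' A³ ≠ k a³`, are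
few, since for fixed `A`, `a` they lie on a conic without many points.  Curves with the same invariant are
twists of each other and are excluded by a prime of multiplicative reduction.
-/

set_option autoImplicit false

open WeierstrassCurve
open scoped Classical

namespace Pool.Agent.Results.MP_4a0cc8_nt.LargerPartners

section
variable {K : Type} [Field K]

/-- The curve `y² = x³ + Ax + B` over `K`. -/
def curve (A B : K) : WeierstrassCurve K := ⟨0, 0, 0, A, B⟩

/-- The group of its points over the algebraic closure of `K`. -/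
abbrev Points (A B : K) : Type := ((curve A B).baseChange (AlgebraicClosure K)).toAffine.Point

/-- The action of a `K`-automorphism `σ` of the algebraic closure on the points. -/
noncomputable def galois (A B : K) (σ : AlgebraicClosure K ≃ₐ[K] AlgebraicClosure K) :
    Points A B →+ Points A B :=
  WeierstrassCurve.Affine.Point.map (σ : AlgebraicClosure K →ₐ[K] AlgebraicClosure K)

/-- The `n`-torsion of `y² = x³ + Ax + B` and that of `y² = x³ + A'x + B'` are isomorphic as Galois
modules over `K`: some map between the groups of points restricts to a bijective additive map of the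
`n`-torsion which commutes with the Galois group. -/
def Congruent (n : ℕ) (A B A' B' : K) : Prop :=
  ∃ f : Points A B → Points A' B', (∀ P Q, n • P = 0 → n • Q = 0 → f (P + Q) = f P + f Q) ∧
    Set.BijOn f {P | n • P = 0} {Q | n • Q = 0} ∧
    ∀ (σ : AlgebraicClosure K ≃ₐ[K] AlgebraicClosure K) (P : Points A B), n • P = 0 →
      f (galois A B σ P) = galois A' B' σ (f P)

/-- The curves are isomorphic over `K`. -/
def Isomorphic (A B A' B' : K) : Prop := ∃ c : K, c ≠ 0 ∧ A' = c ^ 4 * A ∧ B' = c ^ 6 * B

/-- The `j`-invariant. -/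
noncomputable def invariant (A B : K) : K := 1728 * (4 * A ^ 3) / (4 * A ^ 3 + 27 * B ^ 2)

end

/-- The discriminant, up to the factor `-16`. -/
def disc (A B : ℤ) : ℤ := 4 * A ^ 3 + 27 * B ^ 2

/-- The height of `y² = x³ + Ax + B`. -/
def height (A B : ℤ) : ℤ := max (4 * |A| ^ 3) (27 * B ^ 2)

/-- The product of the primes `q ≥ 5` dividing `4A³ + 27B²`, squared if `q ∣ A`.  If the equation
`y² = x³ + Ax + B` is minimal, this is the part prime to `6` of the conductor of the curve over `ℚ`. -/
def conductor (A B : ℤ) : ℕ :=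
  ∏ q ∈ (disc A B).natAbs.primeFactors.filter (fun q => 5 ≤ q), if (q : ℤ) ∣ A then q ^ 2 else q

/-- Let `K` be a number field of degree at most `d` and prime to `6`, `n` a multiple of a prime `p ≥ 13`,
`p > [K : ℚ]`, and `E : y² = x³ + A'x + B'` an elliptic curve over `K` with the invariant of a curve
`y² = x³ + ax + b`, `a`, `b` integers, of height at most `Z` or at most the power `3 / 2` of its conductor.
Then `E[n]` is not isomorphic to `E₀[n]`, `E₀ : y² = x³ + Ax + B`, unless `E` is isomorphic to `E₀`. -/
def NoPartner (d : ℕ) (Z : ℝ) (A B : ℤ) : Prop :=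
  ∀ (K : Type) [Field K] [NumberField K] (A' B' : K) (a b : ℤ),
    Module.finrank ℚ K ≤ d → (Module.finrank ℚ K).Coprime 6 →
    4 * A' ^ 3 + 27 * B' ^ 2 ≠ 0 → disc a b ≠ 0 → invariant A' B' = invariant (a : K) (b : K) →
    ((height a b : ℝ) ≤ Z ∨ (height a b : ℝ) ≤ (conductor a b : ℝ) ^ (3 / 2 : ℝ)) →
    ∀ n p : ℕ, p.Prime → 13 ≤ p → Module.finrank ℚ K < p → p ∣ n →
      Congruent n (A : K) (B : K) A' B' → Isomorphic (A : K) (B : K) A' B'

/-- **Theorem.**  Let `κ < 5 / 3` and `d ≥ 0`.  There are `δ > 0` and `C` such that for all `H ≥ 1` all but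
`C H ^ (5/6 - δ)` of the equations `E₀ : y² = x³ + Ax + B` of height at most `H` define elliptic curves with
the property `NoPartner d (H ^ κ)`.  The number of equations of height at most `H` is at least
`H ^ (5/6) / 9`. -/
theorem result (κ : ℝ) (hκ : κ < 5 / 3) (d : ℕ) : ∃ δ : ℝ, 0 < δ ∧ ∃ C : ℝ, ∀ H : ℝ, 1 ≤ H →
    ({p : ℤ × ℤ | (height p.1 p.2 : ℝ) ≤ H ∧
      ¬ (disc p.1 p.2 ≠ 0 ∧ NoPartner d (H ^ κ) p.1 p.2)}.ncard : ℝ) ≤ C * H ^ (5 / 6 - δ) ∧
    H ^ (5 / 6 : ℝ) / 9 ≤ ({p : ℤ × ℤ | (height p.1 p.2 : ℝ) ≤ H}.ncard : ℝ) := by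
  have hsz : ∀ a b : ℤ, Run7.h577.V.Size a b = (height a b : ℝ) := by
    intro a b
    unfold Run7.h577.V.Size height
    push_cast
    rfl
  have hds : ∀ a b : ℤ, Run7.h577.W.ds a b = disc a b := fun a b => rfl
  have hnc : ∀ a b : ℤ, Run7.h577.W.Nc a b = conductor a b := by
    intro a b
    rw [Run7.h577.W.Nc_eq]
    unfold Run7.h577.V.num Run7.h577.W.PB conductor
    refine Finset.prod_congr rfl fun q _ => ?_
    by_cases hq : (q : ℤ) ∣ a
    · simp only [hq, if_true]
    · simp only [hq, if_false, pow_one]
  obtain ⟨δ, C, hδ, -, h⟩ := Run7.h577.W.final_height κ hκ d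
  refine ⟨δ, hδ, C, fun H hH => ⟨h H hH _ ?_, ?_⟩⟩
  · rintro p ⟨hp1, hp2⟩
    refine ⟨by rw [hsz]; exact hp1, ?_⟩
    by_cases h0 : disc p.1 p.2 = 0
    · exact Or.inl h0
    right
    by_contra hno
    apply hp2
    refine ⟨h0, ?_⟩
    intro K _ _ A' B' a b g1 g2 g3 g4 g5 g6 n q g7 g8 g9 g10 g11
    by_contra g12
    apply hno
    obtain ⟨f, f1, f2, f3⟩ := g11
    refine ⟨K, inferInstance, inferInstance, n, q, A', B', a, b, g1, g2, g7, g8, g9, g10, g4, g3,
      ?_, ?_, ⟨f, ⟨f1, f2, f3⟩⟩, g12⟩
    · have e1 : Pool.Agent.Y673.Loc.jv A' B' = invariant A' B' := by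
        unfold Pool.Agent.Y673.Loc.jv invariant
        ring
      rw [e1, g5]
      unfold invariant Run7.h577.W.jq
      push_cast
      ring
    · rw [hsz, hnc]
      exact g6
  · have := Run7.h577.W.total_low H hH
    simp only [hsz] at this
    exact this

end Pool.Agent.Results.MP_4a0cc8_nt.LargerPartners
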